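import Pool.Agent.MWGR.StmtsE

/-!
# MWGR, row FRR: the right state is free if neither `(x, a)` nor `(a, x)` is rigid
-/

set_option autoImplicit false

namespace Pool.Agent.MWGR.H52

open Pool.Agent.Helper14_MV Pool.Agent.Helper2_MV Pool.Agent.MVO Pool.Agent.MWL Pool.Agent.MWS
  Pool.Agent.MWH Pool.Agent.MWGR

theorem sq3 (hSQL : SqlStmt) (k i : ℕ) (B : ℕ → List ℕ) (j0 j1 j2 c0 c1 c2 : ℕ) (hik : i ≤ k)
    (h0 : i < j0) (h01 : j0 < j1) (h12 : j1 < j2) (h2 : j2 ≤ k) (m0 : c0 ∈ B j0) (m1 : c1 ∈ B j1)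
    (m2 : c2 ∈ B j2) : [c0, c1, c2].Sublist (suf B i (k - i)) := by
  have h := hSQL k i 3 B (fun t => if t = 0 then j0 else if t = 1 then j1 else j2)
    (fun t => if t = 0 then c0 else if t = 1 then c1 else c2) hik (by
      intro t ht
      interval_cases t
      · exact ⟨by simpa using h0, by simp; omega, by simpa using m0⟩
      · exact ⟨by simp; omega, by simp; omega, by simpa using m1⟩
      · exact ⟨by simp; omega, by simp; omega, by simpa using m2⟩) (by
      intro t ht
      have ht' : t < 2 := by omega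
      interval_cases t
      · simpa using h01
      · simpa using h12)
  have e : (List.range 3).map (fun t => if t = 0 then c0 else if t = 1 then c1 else c2) =
      [c0, c1, c2] := by rfl
  rw [e] at h
  exact h

theorem frr (hCSP : CspStmt) (hMV1 : Mv1Stmt) (hSQL : SqlStmt) (hCMB : CmbStmt) : FrrStmt := by
  intro n η hB hK k B hok hgm i x a hik hxa h1 h2 H pr haH
  apply hMV1 n η hB H pr _ x a haH
  obtain ⟨s1, s2, _⟩ := hCSP n η hB H pr (suf B i (k - i)) x a
  -- a common block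
  have hcom : ∀ j, i < j → j ≤ k → x ∈ B j → a ∈ B j → CrS η H pr (suf B i (k - i)) x a :=
    fun j hj hjk hx ha => s2 (hCMB k B hok hgm i j x a hj hjk hxa hx ha)
  unfold Rg at h1 h2
  push_neg at h1 h2
  obtain ⟨j1, j1', a1, a2, a3, a4, a5, a6, a7⟩ := h1
  obtain ⟨j2, j2', b1, b2, b3, b4, b5, b6, b7⟩ := h2
  rcases Nat.lt_or_ge j1 j1' with c1 | c1
  · rcases Nat.lt_or_ge j2 j2' with c2 | c2
    · rcases Nat.lt_trichotomy j1' j2' with c3 | c3 | c3
      · exact s1 hK (Or.inr (sq3 hSQL k i B j1 j1' j2' a x a hik a1 c1 c3 b4 a5 a6 b6))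
      · subst c3
        exact hcom j1' a3 a4 a6 b6
      · exact s1 hK (Or.inl (sq3 hSQL k i B j2 j2' j1' x a x hik b1 c2 c3 a4 b5 b6 a6))
    · have e : j2 = j2' := by omega
      subst e
      exact hcom j2 b1 b2 b5 b6
  · have e : j1 = j1' := by omega
    subst e
    exact hcom j1 a1 a2 a6 a5

end Pool.Agent.MWGR.H52
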